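import Pool.Agent.Work.MP_bcc032_al.Skew

set_option autoImplicit false

/-!
The skew polynomial ring `A[t; phi M]`, presented by generators and relations.
-/

namespace Pool.Agent.Work.MP_bcc032_al

open FreeAlgebra

/-- The free algebra on eight letters. -/
abbrev B := FreeAlgebra ℚ (Fin 8)

/-- The last letter. -/
noncomputable abbrev t : B := ι ℚ (Fin.last 7)

/-- The inclusion of the free algebra on seven letters. -/
noncomputable def inc : A →ₐ[ℚ] B := lift ℚ (fun i => ι ℚ (Fin.castSucc i))

/-- The relations. -/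
noncomputable def rel (M : ℚ) (i : Fin 7) : B := t * inc (g i) - inc (phi M (g i)) * t

/-- The ideal of relations. -/
noncomputable def I (M : ℚ) : TwoSidedIdeal B := TwoSidedIdeal.span (Set.range (rel M))

/-! ### The model -/

/-- Left multiplication by an element of `A`. -/
noncomputable def opX (a : A) : Module.End ℚ (ℕ → A) :=
  LinearMap.pi (fun n => (LinearMap.mulLeft ℚ a) ∘ₗ (LinearMap.proj n))

lemma opX_apply (a : A) (f : ℕ → A) (n : ℕ) : opX a f n = a * f n := rfl

/-- Left multiplication by `t`. -/
noncomputable def opT (M : ℚ) : Module.End ℚ (ℕ → A) :=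
  LinearMap.pi (fun n => match n with
    | 0 => 0
    | n + 1 => (phi M).toLinearMap ∘ₗ (LinearMap.proj n))

lemma opT_zero (M : ℚ) (f : ℕ → A) : opT M f 0 = 0 := rfl

lemma opT_succ (M : ℚ) (f : ℕ → A) (n : ℕ) : opT M f (n + 1) = phi M (f n) := rfl

/-- The representation. -/
noncomputable def rho (M : ℚ) : B →ₐ[ℚ] Module.End ℚ (ℕ → A) :=
  lift ℚ (Fin.lastCases (opT M) (fun i => opX (g i)))

lemma rho_t (M : ℚ) : rho M t = opT M := by
  rw [rho, lift_ι_apply, Fin.lastCases_last]

lemma rho_gen (M : ℚ) (i : Fin 7) : rho M (ι ℚ (Fin.castSucc i)) = opX (g i) := by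
  rw [rho, lift_ι_apply, Fin.lastCases_castSucc]

/-- `opX` as a linear map. -/
noncomputable def opXl : A →ₗ[ℚ] Module.End ℚ (ℕ → A) where
  toFun := opX
  map_add' a b := by
    ext1 f
    funext n
    simp only [LinearMap.add_apply, Pi.add_apply, opX_apply, add_mul]
  map_smul' c a := by
    ext1 f
    funext n
    simp only [LinearMap.smul_apply, Pi.smul_apply, opX_apply, smul_mul_assoc,
      RingHom.id_apply]

lemma opXl_apply (a : A) : opXl a = opX a := rfl

lemma rho_inc (M : ℚ) (a : A) : rho M (inc a) = opX a := by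
  have : a ∈ LinearMap.eqLocus ((rho M).toLinearMap ∘ₗ inc.toLinearMap) opXl := by
    apply left_ind
    · rw [LinearMap.mem_eqLocus]
      simp only [LinearMap.comp_apply, AlgHom.toLinearMap_apply, opXl_apply, map_one]
      ext1 f
      funext n
      rw [opX_apply, one_mul]
      rfl
    · intro x a ha
      rw [LinearMap.mem_eqLocus] at ha ⊢
      simp only [LinearMap.comp_apply, AlgHom.toLinearMap_apply, opXl_apply, map_mul] at ha ⊢
      rw [ha]
      have : inc (ι ℚ x) = ι ℚ (Fin.castSucc x) := by simp [inc]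
      rw [this, rho_gen]
      ext1 f
      funext n
      simp only [Module.End.mul_apply, opX_apply, mul_assoc]
  simpa only [LinearMap.mem_eqLocus, LinearMap.comp_apply, AlgHom.toLinearMap_apply,
    opXl_apply] using this

lemma rho_rel (M : ℚ) (i : Fin 7) : rho M (rel M i) = 0 := by
  rw [rel, map_sub, map_mul, map_mul, rho_t, rho_inc, rho_inc, sub_eq_zero]
  ext f n
  cases n with
  | zero => simp [opX_apply, opT_zero]
  | succ n => simp [opX_apply, opT_succ]

lemma rho_I (M : ℚ) (p : B) (hp : p ∈ I M) : rho M p = 0 := by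
  have h : I M ≤ TwoSidedIdeal.ker (rho M) := by
    rw [I, TwoSidedIdeal.span_le]
    rintro _ ⟨i, rfl⟩
    rw [SetLike.mem_coe, TwoSidedIdeal.mem_ker]
    exact rho_rel M i
  exact (TwoSidedIdeal.mem_ker _).mp (h hp)

/-- The unit vector. -/
noncomputable def δ : ℕ → A := Pi.single 0 1

/-- The normal form. -/
noncomputable def nf (M : ℚ) : B →ₗ[ℚ] (ℕ → A) := (LinearMap.applyₗ δ) ∘ₗ (rho M).toLinearMap

lemma nf_def (M : ℚ) (p : B) : nf M p = rho M p δ := rfl

lemma nf_mul (M : ℚ) (p q : B) : nf M (p * q) = rho M p (nf M q) := by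
  simp [nf_def]

lemma nf_one (M : ℚ) : nf M 1 = δ := by simp [nf_def]

lemma nf_I (M : ℚ) (p : B) (hp : p ∈ I M) : nf M p = 0 := by
  rw [nf_def, rho_I M p hp]
  rfl

lemma gen_cases (x : Fin 8) : x = Fin.last 7 ∨ ∃ i : Fin 7, x = Fin.castSucc i := by
  induction x using Fin.lastCases with
  | last => left; rfl
  | cast i => right; exact ⟨i, rfl⟩

/-- The product formula. -/
lemma rho_formula (M : ℚ) (p : B) : ∀ (f : ℕ → A) (n : ℕ), rho M p f n =
    ∑ x ∈ Finset.HasAntidiagonal.antidiagonal n, nf M p x.1 * (phi M)^[x.1] (f x.2) := by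
  let C : Submodule ℚ B :=
    { carrier := {p | ∀ (f : ℕ → A) (n : ℕ), rho M p f n =
        ∑ x ∈ Finset.HasAntidiagonal.antidiagonal n, nf M p x.1 * (phi M)^[x.1] (f x.2)}
      add_mem' := by
        intro a b ha hb f n
        simp only [Set.mem_ofPred_eq] at ha hb
        simp only [map_add, LinearMap.add_apply, Pi.add_apply, add_mul, Finset.sum_add_distrib,
          ha, hb]
      zero_mem' := by
        intro f n
        simp
      smul_mem' := by
        intro c a ha f n
        simp only [Set.mem_ofPred_eq] at ha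
        simp only [map_smul, LinearMap.smul_apply, Pi.smul_apply, smul_mul_assoc,
          ← Finset.smul_sum, ha] }
  have : p ∈ C := by
    apply left_ind
    · intro f n
      rw [map_one, nf_one]
      rw [Finset.sum_eq_single (0, n)]
      · simp [δ]
      · rintro ⟨i, j⟩ hx hne
        have hx' : i + j = n := Finset.HasAntidiagonal.mem_antidiagonal.mp hx
        have hi : i ≠ 0 := by
          rintro rfl
          rw [zero_add] at hx'
          exact hne (by rw [hx'])
        simp [δ, Pi.single_eq_of_ne hi]
      · simp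
    · intro x a ha
      have ha' : ∀ (f : ℕ → A) (n : ℕ), rho M a f n =
        ∑ x ∈ Finset.HasAntidiagonal.antidiagonal n, nf M a x.1 * (phi M)^[x.1] (f x.2) := ha
      intro f n
      rcases gen_cases x with rfl | ⟨i, rfl⟩
      · rw [map_mul, nf_mul, rho_t, Module.End.mul_apply]
        cases n with
        | zero => simp [opT_zero]
        | succ n =>
          rw [opT_succ, Finset.Nat.sum_antidiagonal_succ, opT_zero, zero_mul, zero_add, ha',
            map_sum]
          apply Finset.sum_congr rfl
          rintro ⟨i, j⟩ _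
          rw [opT_succ, map_mul, Function.iterate_succ_apply']
      · rw [map_mul, nf_mul, rho_gen, Module.End.mul_apply, opX_apply, ha', Finset.mul_sum]
        apply Finset.sum_congr rfl
        rintro ⟨i, j⟩ _
        rw [opX_apply, mul_assoc]
  exact this

lemma twist (M : ℚ) (a : A) : t * inc a - inc (phi M a) * t ∈ I M := by
  let C : Submodule ℚ A :=
    { carrier := {a | t * inc a - inc (phi M a) * t ∈ I M}
      add_mem' := by
        intro a b ha hb
        simp only [Set.mem_ofPred_eq] at ha hb ⊢
        have := (I M).add_mem ha hb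
        convert this using 1
        simp only [map_add, mul_add, add_mul]
        abel
      zero_mem' := by
        simp only [Set.mem_ofPred_eq, map_zero, mul_zero, zero_mul, sub_zero]
        exact (I M).zero_mem
      smul_mem' := by
        intro c a ha
        simp only [Set.mem_ofPred_eq] at ha ⊢
        have := (I M).mul_mem_left (algebraMap ℚ B c) _ ha
        convert this using 1
        rw [← Algebra.smul_def, map_smul, map_smul, map_smul, smul_sub, mul_smul_comm,
          smul_mul_assoc] }
  have : a ∈ C := by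
    apply left_ind
    · change t * inc 1 - inc (phi M 1) * t ∈ I M
      rw [map_one, map_one, map_one, mul_one, one_mul, sub_self]
      exact (I M).zero_mem
    · intro i a ha
      change t * inc (ι ℚ i * a) - inc (phi M (ι ℚ i * a)) * t ∈ I M
      have ha' : t * inc a - inc (phi M a) * t ∈ I M := ha
      have h1 : rel M i * inc a ∈ I M :=
        (I M).mul_mem_right _ _ (TwoSidedIdeal.subset_span ⟨i, rfl⟩)
      have h2 : inc (phi M (g i)) * (t * inc a - inc (phi M a) * t) ∈ I M :=
        (I M).mul_mem_left _ _ ha'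
      have := (I M).add_mem h1 h2
      convert this using 1
      rw [rel, map_mul, map_mul, map_mul]
      noncomm_ring
  exact this

lemma nf_reduce (M : ℚ) (p : B) :
    ∀ᶠ m in Filter.atTop, p - ∑ j ∈ Finset.range m, inc (nf M p j) * t ^ j ∈ I M := by
  let C : Submodule ℚ B :=
    { carrier := {p | ∀ᶠ m in Filter.atTop,
        p - ∑ j ∈ Finset.range m, inc (nf M p j) * t ^ j ∈ I M}
      add_mem' := by
        intro a b ha hb
        simp only [Set.mem_ofPred_eq] at ha hb ⊢
        filter_upwards [ha, hb] with m h1 h2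
        have := (I M).add_mem h1 h2
        convert this using 1
        simp only [map_add, Pi.add_apply, add_mul, Finset.sum_add_distrib]
        abel
      zero_mem' := by
        simp only [Set.mem_ofPred_eq]
        filter_upwards with m
        simp only [map_zero, Pi.zero_apply, zero_mul, Finset.sum_const_zero, sub_zero]
        exact (I M).zero_mem
      smul_mem' := by
        intro c a ha
        simp only [Set.mem_ofPred_eq] at ha ⊢
        filter_upwards [ha] with m h1
        have := (I M).mul_mem_left (algebraMap ℚ B c) _ h1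
        convert this using 1
        rw [← Algebra.smul_def, smul_sub, Finset.smul_sum]
        simp only [map_smul, Pi.smul_apply, smul_mul_assoc] }
  have : p ∈ C := by
    apply left_ind
    · change ∀ᶠ m in Filter.atTop, 1 - ∑ j ∈ Finset.range m, inc (nf M 1 j) * t ^ j ∈ I M
      filter_upwards [Filter.eventually_ge_atTop 1] with m hm
      rw [Finset.sum_eq_single 0]
      · rw [nf_one]
        simp only [δ, Pi.single_eq_same, map_one, pow_zero, mul_one, sub_self]
        exact (I M).zero_mem
      · intro j _ hj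
        rw [nf_one]
        simp [δ, Pi.single_eq_of_ne hj]
      · intro h
        simp only [Finset.mem_range, not_lt] at h
        omega
    · intro x a ha
      change ∀ᶠ m in Filter.atTop,
        ι ℚ x * a - ∑ j ∈ Finset.range m, inc (nf M (ι ℚ x * a) j) * t ^ j ∈ I M
      have ha' : ∀ᶠ m in Filter.atTop,
        a - ∑ j ∈ Finset.range m, inc (nf M a j) * t ^ j ∈ I M := ha
      rw [Filter.eventually_atTop] at ha' ⊢
      obtain ⟨m0, hm0⟩ := ha'
      rcases gen_cases x with rfl | ⟨i, rfl⟩
      · refine ⟨m0 + 1, ?_⟩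
        intro m hm
        obtain ⟨m, rfl⟩ : ∃ k, m = k + 1 := ⟨m - 1, by omega⟩
        have h1 := (I M).mul_mem_left t _ (hm0 m (by omega))
        have h2 : ∑ j ∈ Finset.range m, (t * inc (nf M a j) - inc (phi M (nf M a j)) * t) * t ^ j
            ∈ I M := by
          apply sum_mem
          intro j _
          exact (I M).mul_mem_right _ _ (twist M _)
        have := (I M).add_mem h1 h2
        convert this using 1
        rw [Finset.sum_range_succ', nf_mul, rho_t, opT_zero]
        simp only [opT_succ, map_zero, zero_mul, add_zero, sub_mul, Finset.sum_sub_distrib,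
          mul_sub, Finset.mul_sum, mul_assoc, pow_succ']
        abel
      · refine ⟨m0, ?_⟩
        intro m hm
        have h1 := (I M).mul_mem_left (inc (g i)) _ (hm0 m hm)
        convert h1 using 1
        have hg : inc (g i) = ι ℚ (Fin.castSucc i) := by simp [inc]
        rw [nf_mul, rho_gen, mul_sub, Finset.mul_sum, hg]
        simp only [opX_apply, map_mul, mul_assoc]
        rw [show inc (g i) = ι ℚ (Fin.castSucc i) by simp [inc]]
  exact this

lemma mem_I_of_nf (M : ℚ) (p : B) (h : nf M p = 0) : p ∈ I M := by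
  obtain ⟨m, hm⟩ := (nf_reduce M p).exists
  simpa [h] using hm

lemma mem_I_iff (M : ℚ) (p : B) : p ∈ I M ↔ nf M p = 0 :=
  ⟨nf_I M p, mem_I_of_nf M p⟩

/-! ### Degrees of normal forms -/

lemma nf_word (M : ℚ) (l : List (Fin 8)) :
    (∀ j, nf M ((l.map (ι ℚ)).prod) j ∈ L (2 ^ l.length)) ∧
    (∀ j, l.length < j → nf M ((l.map (ι ℚ)).prod) j = 0) := by
  induction l with
  | nil =>
    constructor
    · intro j
      simp only [List.map_nil, List.prod_nil, nf_one, List.length_nil, pow_zero, δ]
      rcases eq_or_ne j 0 with rfl | hj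
      · simpa using one_mem_L
      · simp [Pi.single_eq_of_ne hj]
    · intro j hj
      simp only [List.map_nil, List.prod_nil, nf_one, δ]
      simp only [List.length_nil] at hj
      simp [Pi.single_eq_of_ne (by omega : j ≠ 0)]
  | cons x l ih =>
    obtain ⟨ih1, ih2⟩ := ih
    have h1 : 1 ≤ 2 ^ l.length := Nat.one_le_two_pow
    simp only [List.map_cons, List.prod_cons, nf_mul, List.length_cons]
    rcases gen_cases x with rfl | ⟨i, rfl⟩
    · rw [rho_t]
      constructor
      · intro j
        cases j with
        | zero => rw [opT_zero]; exact zero_mem _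
        | succ j =>
          rw [opT_succ, pow_succ']
          exact phi_mem_L M _ _ (ih1 j)
      · intro j hj
        cases j with
        | zero => rw [opT_zero]
        | succ j => rw [opT_succ, ih2 j (by omega), map_zero]
    · rw [rho_gen]
      constructor
      · intro j
        rw [opX_apply]
        exact L_mono (by rw [pow_succ]; omega) (gen_mul_mem_L i (ih1 j))
      · intro j hj
        rw [opX_apply, ih2 j (by omega), mul_zero]

lemma nf_low (M : ℚ) (N : ℕ) (p : B)
    (hp : p ∈ Submodule.span ℚ {a : B | ∃ w : FreeMonoid (Fin 8),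
            w.length < N ∧ a = (w.toList.map (FreeAlgebra.ι ℚ)).prod}) :
    (∀ j, nf M p j ∈ L (2 ^ N)) ∧ (∀ j, N ≤ j → nf M p j = 0) := by
  let C : Submodule ℚ B :=
    { carrier := {p | (∀ j, nf M p j ∈ L (2 ^ N)) ∧ (∀ j, N ≤ j → nf M p j = 0)}
      add_mem' := by
        rintro a b ⟨h1, h2⟩ ⟨h3, h4⟩
        refine ⟨fun j => ?_, fun j hj => ?_⟩
        · rw [map_add]; exact add_mem (h1 j) (h3 j)
        · rw [map_add, Pi.add_apply, h2 j hj, h4 j hj, add_zero]
      zero_mem' := by
        refine ⟨fun j => ?_, fun j hj => ?_⟩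
        · rw [map_zero]; exact zero_mem _
        · rw [map_zero]; rfl
      smul_mem' := by
        rintro c a ⟨h1, h2⟩
        refine ⟨fun j => ?_, fun j hj => ?_⟩
        · rw [map_smul]; exact Submodule.smul_mem _ _ (h1 j)
        · rw [map_smul, Pi.smul_apply, h2 j hj, smul_zero] }
  have hC : Submodule.span ℚ {a : B | ∃ w : FreeMonoid (Fin 8),
            w.length < N ∧ a = (w.toList.map (FreeAlgebra.ι ℚ)).prod} ≤ C := by
    rw [Submodule.span_le]
    rintro _ ⟨w, hw, rfl⟩
    obtain ⟨h1, h2⟩ := nf_word M w.toList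
    have hw' : w.toList.length < N := hw
    refine ⟨fun j => L_mono (Nat.pow_le_pow_right (by norm_num) hw'.le) (h1 j), fun j hj => ?_⟩
    exact h2 j (by omega)
  exact hC hp

/-- No zero divisors in low degree. -/
lemma no_low (M : ℚ) (N : ℕ) (hM : ((2 * (2 ^ N * 2 ^ N) : ℕ) : ℚ) ≤ M) (p q : B)
    (hp : p ∈ Submodule.span ℚ {a : B | ∃ w : FreeMonoid (Fin 8),
            w.length < N ∧ a = (w.toList.map (FreeAlgebra.ι ℚ)).prod})
    (hq : q ∈ Submodule.span ℚ {a : B | ∃ w : FreeMonoid (Fin 8),
            w.length < N ∧ a = (w.toList.map (FreeAlgebra.ι ℚ)).prod})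
    (hp0 : p ∉ I M) (hq0 : q ∉ I M) : p * q ∉ I M := by
  intro hpq
  obtain ⟨-, hp2⟩ := nf_low M N p hp
  obtain ⟨hq1, -⟩ := nf_low M N q hq
  rw [mem_I_iff] at hp0 hq0 hpq
  have hpe : ∃ i, nf M p i ≠ 0 := by
    by_contra h
    push Not at h
    exact hp0 (funext h)
  have hqe : ∃ i, nf M q i ≠ 0 := by
    by_contra h
    push Not at h
    exact hq0 (funext h)
  classical
  obtain ⟨i, hi, hi'⟩ : ∃ i, nf M p i ≠ 0 ∧ ∀ k < i, nf M p k = 0 :=
    ⟨Nat.find hpe, Nat.find_spec hpe, fun k hk => by simpa using Nat.find_min hpe hk⟩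
  obtain ⟨j, hj, hj'⟩ : ∃ j, nf M q j ≠ 0 ∧ ∀ k < j, nf M q k = 0 :=
    ⟨Nat.find hqe, Nat.find_spec hqe, fun k hk => by simpa using Nat.find_min hqe hk⟩
  have hiN : i < N := by
    by_contra h
    exact hi (hp2 i (by omega))
  have h := congrFun hpq (i + j)
  rw [nf_mul, rho_formula, Finset.sum_eq_single (i, j)] at h
  · simp only [Pi.zero_apply, mul_eq_zero] at h
    rcases h with h | h
    · exact hi h
    · apply hj
      apply iter_low M i (2 ^ N) _ _ (hq1 j) h
      refine le_trans ?_ hM
      have : 2 ^ i ≤ 2 ^ N := Nat.pow_le_pow_right (by norm_num) hiN.le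
      exact_mod_cast Nat.mul_le_mul_left 2 (Nat.mul_le_mul_right _ this)
  · rintro ⟨a, b⟩ hab' hne
    have hab : a + b = i + j := Finset.HasAntidiagonal.mem_antidiagonal.mp hab'
    rcases lt_trichotomy a i with h | h | h
    · simp [hi' a h]
    · subst h
      exact absurd (by rw [show b = j by omega]) hne
    · simp only
      rw [hj' b (by omega)]
      simp [iterate_map_zero]
  · simp

/-! ### The zero divisors -/

lemma nf_inc (M : ℚ) (a : A) : nf M (inc a) = fun n => a * δ n := by
  rw [nf_def, rho_inc]
  rfl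

lemma nf_t (M : ℚ) : nf M t 1 = 1 := by
  rw [nf_def, rho_t, opT_succ]
  simp [δ]

lemma t_notMem (M : ℚ) : t ∉ I M := by
  rw [mem_I_iff]
  intro h
  have := congrFun h 1
  rw [nf_t] at this
  simp at this

lemma inc_notMem (M : ℚ) (a : A) (ha : a ≠ 0) : inc a ∉ I M := by
  rw [mem_I_iff, nf_inc]
  intro h
  have := congrFun h 0
  simp [δ] at this
  exact ha this

lemma zero_div (n : ℕ) : t * inc (kap n) ∈ I ((2 * n : ℕ) : ℚ) := by
  have := twist ((2 * n : ℕ) : ℚ) (kap n)
  rw [phi_kap] at this
  simpa using this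

/-! ### The relations have degree at most three -/

/-- The span of the words of length at most three. -/
noncomputable abbrev S3 : Submodule ℚ B :=
  Submodule.span ℚ {a : FreeAlgebra ℚ (Fin 8) | ∃ w : FreeMonoid (Fin 8),
          w.length ≤ 3 ∧ a = (w.toList.map (FreeAlgebra.ι ℚ)).prod}

lemma mem_two (x y : Fin 8) : ι ℚ x * ι ℚ y ∈ S3 := by
  refine Submodule.subset_span ⟨FreeMonoid.ofList [x, y], ?_, ?_⟩
  · change [x, y].length ≤ 3
    simp
  · simp

lemma mem_three (x y z : Fin 8) : ι ℚ x * ι ℚ y * ι ℚ z ∈ S3 := by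
  refine Submodule.subset_span ⟨FreeMonoid.ofList [x, y, z], ?_, ?_⟩
  · change [x, y, z].length ≤ 3
    simp
  · simp [mul_assoc]

lemma rel_deg (M : ℚ) (i : Fin 7) : rel M i ∈ S3 := by
  have h : ∀ j : Fin 7, inc (g j) = ι ℚ (Fin.castSucc j) := fun j => by simp [inc]
  have hp : phi M (g i) = im M i := by simp [phi]
  rw [rel, hp, h]
  refine sub_mem (mem_two _ _) ?_
  fin_cases i
  · change inc (g 0) * t ∈ S3
    rw [h]
    exact mem_two _ _
  · change inc (g 1) * t ∈ S3
    rw [h]
    exact mem_two _ _
  · change inc (g 2 * g 2 + g 2 * g 3) * t ∈ S3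
    rw [map_add, map_mul, map_mul, h, h, add_mul]
    exact add_mem (mem_three _ _ _) (mem_three _ _ _)
  · change inc (g 2 * g 3 + g 3 * g 2) * t ∈ S3
    rw [map_add, map_mul, map_mul, h, h, add_mul]
    exact add_mem (mem_three _ _ _) (mem_three _ _ _)
  · change inc (g 3 * g 3) * t ∈ S3
    rw [map_mul, h]
    exact mem_three _ _ _
  · change inc (g 0 * g 2) * t ∈ S3
    rw [map_mul, h, h]
    exact mem_three _ _ _
  · change inc (e M * g 1) * t ∈ S3
    rw [e, add_mul, map_add, map_mul, map_mul, map_smul, h, h, h, add_mul, smul_mul_assoc,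
      smul_mul_assoc]
    exact add_mem (mem_three _ _ _) (Submodule.smul_mem _ _ (mem_three _ _ _))

end Pool.Agent.Work.MP_bcc032_al
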