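import Mathlib

set_option autoImplicit false

/-!
A family of finitely presented algebras on 8 generators and 7 relations of degree 3 over the
rational numbers that are not domains but whose zero divisors only occur in high degree.

`A` is the free algebra on 7 letters, `phi M : A → A` an endomorphism with images of degree at
most 2 that is injective in low degree but not injective, and the algebra is the skew polynomial
ring `A[t; phi M]`.
-/

namespace Pool.Agent.Work.MP_bcc032_al

open FreeAlgebra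

/-- Induction on the free algebra by multiplication with a generator from the left. -/
lemma left_ind {X : Type} (C : Submodule ℚ (FreeAlgebra ℚ X)) (h1 : (1 : FreeAlgebra ℚ X) ∈ C)
    (hx : ∀ (x : X) (a : FreeAlgebra ℚ X), a ∈ C → ι ℚ x * a ∈ C) (a : FreeAlgebra ℚ X) :
    a ∈ C := by
  have key : ∀ b : FreeAlgebra ℚ X, ∀ a ∈ C, b * a ∈ C := by
    intro b
    induction b using FreeAlgebra.induction with
    | grade0 r =>
      intro a ha
      rw [← Algebra.smul_def]
      exact C.smul_mem r ha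
    | grade1 x => exact hx x
    | mul b c hb hc =>
      intro a ha
      rw [mul_assoc]
      exact hb _ (hc _ ha)
    | add b c hb hc =>
      intro a ha
      rw [add_mul]
      exact C.add_mem (hb _ ha) (hc _ ha)
  simpa using key a 1 h1

/-! ### Left derivatives on a free algebra -/

/-- The free algebra on seven letters. -/
abbrev A := FreeAlgebra ℚ (Fin 7)

/-- The letters. -/
noncomputable abbrev g (i : Fin 7) : A := ι ℚ i

/-- The module of `constant term, left coefficients`. -/
abbrev W := ℚ × (Fin 7 → A)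

/-- Reassembling an element from its constant term and left coefficients. -/
noncomputable def asm : W →ₗ[ℚ] A where
  toFun w := algebraMap ℚ A w.1 + ∑ i, g i * w.2 i
  map_add' v w := by
    simp only [Prod.fst_add, Prod.snd_add, Pi.add_apply, map_add, mul_add, Finset.sum_add_distrib]
    abel
  map_smul' c w := by
    simp only [Prod.smul_fst, Prod.smul_snd, Pi.smul_apply, smul_eq_mul, map_mul,
      mul_smul_comm, RingHom.id_apply, smul_add, Finset.smul_sum]
    rw [← Algebra.smul_def]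

/-- The operator on `W` of left multiplication by a letter. -/
noncomputable def opW (i : Fin 7) : Module.End ℚ W :=
  (LinearMap.inr ℚ ℚ (Fin 7 → A)) ∘ₗ (LinearMap.single ℚ (fun _ => A) i) ∘ₗ asm

/-- Decomposition of an element. -/
noncomputable def dec : A →ₗ[ℚ] W :=
  (LinearMap.applyₗ (1, 0)) ∘ₗ (lift ℚ opW).toLinearMap

lemma dec_one : dec 1 = (1, 0) := by
  simp [dec]

lemma dec_gen' (i : Fin 7) (a : A) : dec (g i * a) = opW i (dec a) := by
  simp [dec]

lemma asm_dec (a : A) : asm (dec a) = a := by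
  have : a ∈ LinearMap.eqLocus (asm ∘ₗ dec) LinearMap.id := by
    apply left_ind
    · rw [LinearMap.mem_eqLocus]
      simp [dec_one, asm]
    · intro x a ha
      rw [LinearMap.mem_eqLocus] at ha ⊢
      simp only [LinearMap.comp_apply, LinearMap.id_apply] at ha ⊢
      rw [dec_gen', opW]
      simp only [LinearMap.comp_apply, ha]
      simp only [asm, LinearMap.coe_mk, AddHom.coe_mk, LinearMap.inr_apply, map_zero, zero_add,
        LinearMap.single_apply]
      rw [Finset.sum_eq_single x]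
      · simp
      · intro b _ hb
        simp [Pi.single_eq_of_ne hb]
      · simp
  simpa [LinearMap.mem_eqLocus] using this

lemma dec_gen (i : Fin 7) (a : A) : dec (g i * a) = (0, Pi.single i a) := by
  rw [dec_gen', opW]
  simp [asm_dec]

/-- Left coefficient. -/
noncomputable def del (i : Fin 7) : A →ₗ[ℚ] A :=
  (LinearMap.proj i) ∘ₗ (LinearMap.snd ℚ ℚ (Fin 7 → A)) ∘ₗ dec

/-- Constant term. -/
noncomputable def cst : A →ₗ[ℚ] ℚ := (LinearMap.fst ℚ ℚ (Fin 7 → A)) ∘ₗ dec

lemma del_gen (i j : Fin 7) (a : A) : del i (g j * a) = if i = j then a else 0 := by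
  simp only [del, LinearMap.comp_apply, dec_gen, LinearMap.snd_apply, LinearMap.proj_apply]
  split_ifs with h
  · subst h; simp
  · simp [Pi.single_eq_of_ne h]

lemma cst_gen (j : Fin 7) (a : A) : cst (g j * a) = 0 := by
  simp [cst, dec_gen]

lemma del_one (i : Fin 7) : del i 1 = 0 := by
  simp [del, dec_one]

lemma cst_one : cst 1 = 1 := by
  simp [cst, dec_one]

lemma decomp (a : A) : a = algebraMap ℚ A (cst a) + ∑ i, g i * del i a := by
  conv_lhs => rw [← asm_dec a]
  rfl

/-- `L n` is the space of elements of degree less than `n`. -/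
noncomputable def L : ℕ → Submodule ℚ A
  | 0 => ⊥
  | n + 1 => ⨅ i, (L n).comap (del i)

lemma mem_L_succ (n : ℕ) (a : A) : a ∈ L (n + 1) ↔ ∀ i, del i a ∈ L n := by
  simp [L]

lemma mem_L_zero (a : A) : a ∈ L 0 ↔ a = 0 := by
  simp [L]

lemma L_succ_le (n : ℕ) : L n ≤ L (n + 1) := by
  induction n with
  | zero => simp [L]
  | succ n ih =>
    intro a ha
    rw [mem_L_succ] at ha ⊢
    exact fun i => ih (ha i)

lemma L_mono {m n : ℕ} (h : m ≤ n) : L m ≤ L n :=
  monotone_nat_of_le_succ L_succ_le h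

lemma one_mem_L : (1 : A) ∈ L 1 := by
  rw [mem_L_succ]
  intro i
  rw [del_one]
  exact zero_mem _

lemma algebraMap_mem_L (c : ℚ) : algebraMap ℚ A c ∈ L 1 := by
  rw [Algebra.algebraMap_eq_smul_one]
  exact (L 1).smul_mem c one_mem_L

lemma gen_mul_mem_L {n : ℕ} (i : Fin 7) {a : A} (ha : a ∈ L n) : g i * a ∈ L (n + 1) := by
  rw [mem_L_succ]
  intro j
  rw [del_gen]
  split_ifs
  · exact ha
  · exact zero_mem _

/-! ### The endomorphism -/

/-- The vectors `e s`. -/
noncomputable def e (s : ℚ) : A := g 2 + s • g 3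

/-- The images of the seven letters. -/
noncomputable def im (M : ℚ) : Fin 7 → A :=
  ![g 0, g 1, g 2 * g 2 + g 2 * g 3, g 2 * g 3 + g 3 * g 2, g 3 * g 3, g 0 * g 2, e M * g 1]

/-- The endomorphism. -/
noncomputable def phi (M : ℚ) : A →ₐ[ℚ] A := lift ℚ (im M)

lemma phi_expand (M : ℚ) (a : A) :
    phi M a = algebraMap ℚ A (cst a) + g 0 * (phi M (del 0 a) + g 2 * phi M (del 5 a))
      + g 1 * phi M (del 1 a)
      + g 2 * (g 2 * phi M (del 2 a) + g 3 * phi M (del 2 a) + g 3 * phi M (del 3 a)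
          + g 1 * phi M (del 6 a))
      + g 3 * (g 2 * phi M (del 3 a) + g 3 * phi M (del 4 a) + g 1 * (M • phi M (del 6 a))) := by
  conv_lhs => rw [decomp a]
  rw [map_add, AlgHom.commutes, map_sum]
  simp only [map_mul, Fin.sum_univ_seven, phi, lift_ι_apply, im, e]
  simp only [Matrix.cons_val]
  simp only [mul_add, add_mul, mul_assoc, smul_mul_assoc, mul_smul_comm]
  abel

/-- Uniqueness of the decomposition, in the form we use it. -/
lemma uniq (c : ℚ) (x0 x1 x2 x3 : A)
    (h : algebraMap ℚ A c + g 0 * x0 + g 1 * x1 + g 2 * x2 + g 3 * x3 = 0) :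
    c = 0 ∧ x0 = 0 ∧ x1 = 0 ∧ x2 = 0 ∧ x3 = 0 := by
  have hc := congrArg cst h
  have h0 := congrArg (del 0) h
  have h1 := congrArg (del 1) h
  have h2 := congrArg (del 2) h
  have h3 := congrArg (del 3) h
  simp only [map_add, del_gen, cst_gen, Algebra.algebraMap_eq_smul_one, map_smul, cst_one,
    del_one, map_zero] at hc h0 h1 h2 h3
  refine ⟨by simpa using hc, by simpa using h0, by simpa using h1, by simpa using h2,
    by simpa using h3⟩

lemma phi_mem_L (M : ℚ) : ∀ (n : ℕ) (a : A), a ∈ L n → phi M a ∈ L (2 * n) := by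
  intro n
  induction n with
  | zero =>
    intro a ha
    rw [mem_L_zero] at ha
    subst ha
    simp
  | succ n ih =>
    intro a ha
    rw [mem_L_succ] at ha
    have h := fun i => ih _ (ha i)
    rw [phi_expand]
    have e2 : 2 * (n + 1) = 2 * n + 1 + 1 := by ring
    rw [e2]
    have hup : ∀ x : A, x ∈ L (2 * n) → x ∈ L (2 * n + 1) := fun x hx => L_succ_le _ hx
    refine add_mem (add_mem (add_mem (add_mem ?_ ?_) ?_) ?_) ?_
    · exact L_mono (by omega) (algebraMap_mem_L _)
    · exact gen_mul_mem_L _ (add_mem (hup _ (h 0)) (gen_mul_mem_L _ (h 5)))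
    · exact gen_mul_mem_L _ (hup _ (h 1))
    · exact gen_mul_mem_L _ (add_mem (add_mem (add_mem (gen_mul_mem_L _ (h 2))
        (gen_mul_mem_L _ (h 2))) (gen_mul_mem_L _ (h 3))) (gen_mul_mem_L _ (h 6)))
    · exact gen_mul_mem_L _ (add_mem (add_mem (gen_mul_mem_L _ (h 3))
        (gen_mul_mem_L _ (h 4))) (gen_mul_mem_L _ (Submodule.smul_mem _ _ (h 6))))

/-- The main step. -/
lemma step (M : ℚ) (D : ℕ) (hK : ∀ a ∈ L D, phi M a = 0 → a = 0)
    (hS : ∀ a ∈ L D, ∀ b ∈ L D, phi M a + g 2 * phi M b = 0 → a = 0 ∧ b = 0)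
    (s : ℚ) (hs : s ≠ M) (a b : A) (ha : a ∈ L (D + 1))
    (h : phi M a + e s * phi M b = 0) :
    a = g 2 * del 2 a + s • (g 3 * del 2 a) + (s * (s + 1)) • (g 4 * del 2 a) ∧
      phi M b + e (s + 1) * phi M (del 2 a) = 0 := by
  rw [mem_L_succ] at ha
  rw [phi_expand] at h
  have h' : algebraMap ℚ A (cst a) + g 0 * (phi M (del 0 a) + g 2 * phi M (del 5 a))
      + g 1 * phi M (del 1 a)
      + g 2 * (g 2 * phi M (del 2 a) + g 3 * phi M (del 2 a) + g 3 * phi M (del 3 a)
          + g 1 * phi M (del 6 a) + phi M b)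
      + g 3 * (g 2 * phi M (del 3 a) + g 3 * phi M (del 4 a) + g 1 * (M • phi M (del 6 a))
          + s • phi M b) = 0 := by
    rw [← h, e]
    simp only [mul_add, add_mul, mul_assoc, smul_mul_assoc, mul_smul_comm]
    abel
  obtain ⟨hc, h0, h1, hX, hY⟩ := uniq _ _ _ _ _ h'
  have h05 := hS _ (ha 0) _ (ha 5) h0
  have h1' := hK _ (ha 1) h1
  have hYX : algebraMap ℚ A 0 + g 0 * 0 + g 1 * ((M - s) • phi M (del 6 a))
      + g 2 * (phi M (del 3 a - s • del 2 a))
      + g 3 * (phi M (del 4 a - s • del 2 a - s • del 3 a)) = 0 := by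
    have : algebraMap ℚ A 0 + g 0 * 0 + g 1 * ((M - s) • phi M (del 6 a))
      + g 2 * (phi M (del 3 a - s • del 2 a))
      + g 3 * (phi M (del 4 a - s • del 2 a - s • del 3 a)) =
      (g 2 * phi M (del 3 a) + g 3 * phi M (del 4 a) + g 1 * (M • phi M (del 6 a))
          + s • phi M b) -
      s • (g 2 * phi M (del 2 a) + g 3 * phi M (del 2 a) + g 3 * phi M (del 3 a)
          + g 1 * phi M (del 6 a) + phi M b) := by
      simp only [map_sub, map_smul, mul_sub, sub_smul, smul_add, mul_smul_comm, map_zero,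
        mul_zero, zero_add]
      abel
    rw [this, hX, hY]
    simp
  obtain ⟨-, -, h6, h3, h4⟩ := uniq _ _ _ _ _ hYX
  have h6' : del 6 a = 0 := by
    apply hK _ (ha 6)
    rcases smul_eq_zero.mp h6 with h | h
    · exact absurd (sub_eq_zero.mp h).symm hs
    · exact h
  have h3' : del 3 a = s • del 2 a :=
    sub_eq_zero.mp (hK _ (sub_mem (ha 3) (Submodule.smul_mem _ _ (ha 2))) h3)
  have h4' : del 4 a = s • del 2 a + s • del 3 a := by
    have := hK _ (sub_mem (sub_mem (ha 4) (Submodule.smul_mem _ _ (ha 2)))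
      (Submodule.smul_mem _ _ (ha 3))) h4
    rw [sub_sub] at this
    exact sub_eq_zero.mp this
  constructor
  · conv_lhs => rw [decomp a]
    simp only [Fin.sum_univ_seven]
    rw [hc, h05.1, h05.2, h1', h6', h4', h3']
    simp only [map_zero, mul_zero, zero_add, add_zero, mul_smul_comm, mul_add, add_smul,
      smul_smul, mul_one, add_assoc]
    congr 2
    rw [add_comm]
  · rw [h3', h6'] at hX
    rw [e, ← hX]
    simp only [map_smul, map_zero, mul_zero, add_zero, mul_smul_comm, add_mul, smul_mul_assoc,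
      add_smul, one_smul]
    abel

/-- Injectivity in low degree. -/
lemma inj_low (M : ℚ) : ∀ (D : ℕ) (s : ℕ), (s : ℚ) + 2 * D ≤ M → ∀ a ∈ L D, ∀ b ∈ L D,
    phi M a + e s * phi M b = 0 → a = 0 ∧ b = 0 := by
  intro D
  induction D with
  | zero =>
    intro s _ a ha b hb _
    exact ⟨(mem_L_zero a).mp ha, (mem_L_zero b).mp hb⟩
  | succ D ih =>
    intro s hs a ha b hb h
    push_cast at hs
    have hs0 : (0 : ℚ) ≤ s := Nat.cast_nonneg s
    have hD0 : (0 : ℚ) ≤ D := Nat.cast_nonneg D
    have hS : ∀ a ∈ L D, ∀ b ∈ L D, phi M a + g 2 * phi M b = 0 → a = 0 ∧ b = 0 := by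
      intro a ha b hb h
      apply ih 0 (by push_cast; linarith) a ha b hb
      simpa [e] using h
    have hK : ∀ a ∈ L D, phi M a = 0 → a = 0 := by
      intro a ha h
      exact (hS a ha 0 (zero_mem _) (by simpa using h)).1
    obtain ⟨ha1, h1⟩ := step M D hK hS s (by intro h; linarith) a b ha h
    obtain ⟨hb1, h2⟩ := step M D hK hS (s + 1) (by intro h; linarith) b (del 2 a) hb h1
    rw [mem_L_succ] at ha hb
    have h3 : phi M (del 2 a) + e ((s + 2 : ℕ) : ℚ) * phi M (del 2 b) = 0 := by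
      rw [← h2]
      push_cast
      ring_nf
    obtain ⟨h4, h5⟩ := ih (s + 2) (by push_cast; linarith) _ (ha 2) _ (hb 2) h3
    rw [h4] at ha1
    rw [h5] at hb1
    constructor
    · rw [ha1]; simp
    · rw [hb1]; simp

lemma ker_low (M : ℚ) (D : ℕ) (h : (2 : ℚ) * D ≤ M) (a : A) (ha : a ∈ L D)
    (h0 : phi M a = 0) : a = 0 :=
  (inj_low M D 0 (by simpa using h) a ha 0 (zero_mem _) (by simpa using h0)).1

lemma iter_low (M : ℚ) : ∀ (i D : ℕ), ((2 * (2 ^ i * D) : ℕ) : ℚ) ≤ M → ∀ a ∈ L D,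
    (phi M)^[i] a = 0 → a = 0 := by
  intro i
  induction i with
  | zero => intro D _ a _ h; simpa using h
  | succ i ih =>
    intro D hD a ha h
    rw [Function.iterate_succ, Function.comp_apply] at h
    have h1 : phi M a = 0 := by
      apply ih (2 * D) _ _ (phi_mem_L M D a ha) h
      refine le_trans (le_of_eq ?_) hD
      push_cast
      ring
    apply ker_low M D _ a ha h1
    refine le_trans ?_ hD
    push_cast
    have : (1 : ℚ) ≤ 2 ^ (i + 1) := one_le_pow₀ (by norm_num)
    have hD0 : (0 : ℚ) ≤ D := Nat.cast_nonneg D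
    nlinarith

/-! ### A kernel element -/

/-- The element mapped to `e s * e (s + 1)`. -/
noncomputable def w (s : ℚ) : A := g 2 + s • g 3 + (s * (s + 1)) • g 4

lemma phi_w (M s : ℚ) : phi M (w s) = e s * e (s + 1) := by
  simp only [w, phi, map_add, map_smul, lift_ι_apply, im, e]
  simp only [Matrix.cons_val]
  simp only [mul_add, add_mul, smul_mul_assoc, mul_smul_comm, smul_add, smul_smul, add_smul,
    mul_one, one_smul]
  abel

/-- Product of the even factors. -/
noncomputable def P : ℕ → A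
  | 0 => 1
  | n + 1 => P n * w ((2 * n : ℕ) : ℚ)

/-- Product of the odd factors. -/
noncomputable def Q : ℕ → A
  | 0 => 1
  | n + 1 => Q n * w ((2 * n + 1 : ℕ) : ℚ)

lemma phi_PQ (M : ℚ) (n : ℕ) :
    phi M (P n) * e ((2 * n : ℕ) : ℚ) = g 2 * phi M (Q n) := by
  induction n with
  | zero => simp [P, Q, e]
  | succ n ih =>
    rw [P, Q, map_mul, map_mul, phi_w, phi_w, ← mul_assoc, ← mul_assoc (g 2), ← ih]
    push_cast
    have e1 : 2 * ((n : ℚ) + 1) = 2 * n + 1 + 1 := by ring
    rw [e1]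
    simp only [mul_assoc]

/-- The kernel element. -/
noncomputable def kap (n : ℕ) : A := g 0 * P n * g 6 - g 5 * Q n * g 1

lemma phi_kap (n : ℕ) : phi ((2 * n : ℕ) : ℚ) (kap n) = 0 := by
  have h0 : phi ((2 * n : ℕ) : ℚ) (g 0) = g 0 := by simp [phi, im]
  have h1 : phi ((2 * n : ℕ) : ℚ) (g 1) = g 1 := by simp [phi, im]
  have h5 : phi ((2 * n : ℕ) : ℚ) (g 5) = g 0 * g 2 := by simp [phi, im]
  have h6 : phi ((2 * n : ℕ) : ℚ) (g 6) = e ((2 * n : ℕ) : ℚ) * g 1 := by simp [phi, im]
  rw [kap, map_sub, map_mul, map_mul, map_mul, map_mul, h0, h1, h5, h6, sub_eq_zero]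
  calc g 0 * phi ((2 * n : ℕ) : ℚ) (P n) * (e ((2 * n : ℕ) : ℚ) * g 1)
      = g 0 * (phi ((2 * n : ℕ) : ℚ) (P n) * e ((2 * n : ℕ) : ℚ)) * g 1 := by noncomm_ring
    _ = g 0 * g 2 * phi ((2 * n : ℕ) : ℚ) (Q n) * g 1 := by rw [phi_PQ]; noncomm_ring

/-- An evaluation detecting the kernel element. -/
noncomputable def ev : A →ₐ[ℚ] ℚ := lift ℚ ![0, 1, 1, 0, 0, 1, 0]

lemma ev_w (s : ℚ) : ev (w s) = 1 := by
  simp [ev, w]

lemma ev_Q (n : ℕ) : ev (Q n) = 1 := by
  induction n with
  | zero => simp [Q]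
  | succ n ih => rw [Q, map_mul, ih, ev_w]; simp

lemma kap_ne (n : ℕ) : kap n ≠ 0 := by
  intro h
  have := congrArg ev h
  rw [kap, map_sub, map_mul, map_mul, map_mul, map_mul, ev_Q] at this
  simp [ev] at this

end Pool.Agent.Work.MP_bcc032_al
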